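import Pool.Agent.W321.SQ.Stm

/-!
# UN: `n` units from `2 n` joints
-/

set_option autoImplicit false

namespace Pool.Agent.W520.SQ

open Finset Pool.Agent.W321.SP Pool.Agent.W321.SQ

/-- splitting a sum over `range (2 n)` -/
theorem sum_two {M : Type} [AddCommMonoid M] (f : ℕ → M) (n : ℕ) :
    ∑ j ∈ range (2 * n), f j = ∑ i ∈ range n, (f (2 * i) + f (2 * i + 1)) := by
  induction n with
  | zero => simp
  | succ n ih =>
    rw [show 2 * (n + 1) = 2 * n + 1 + 1 by ring, Finset.sum_range_succ, Finset.sum_range_succ,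
      Finset.sum_range_succ, ih, add_assoc]

theorem z_un (hJ : JtStm) : UnStm := by
  intro g₁ g₂ g₃ B H s n A C x E S hp hn h1 h3 hA hE hS hs hH
  obtain ⟨z, hz1, hz2, hz3, hz4, hz5⟩ := hJ g₁ g₂ g₃ B H s (2 * n)
    (fun j => if j % 2 = 0 then A (j / 2) else x (j / 2))
    (fun j => if j % 2 = 0 then x (j / 2) else C (j / 2)) E ∅ S hp (by omega) h1 h3
    (by
      intro j hj
      have hj2 : j / 2 < n := by omega
      obtain ⟨a1, a2, a3, a4, a5, a6⟩ := hA _ hj2
      split_ifs <;> exact ⟨by assumption, by assumption, by assumption, by assumption⟩)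
    hE hS hs
    (by
      have e : 10 ^ 6 * (g₁ * g₂ * g₃) * ((∅ : Finset ℕ).card + 1) * (2 * n) ≤
          10 ^ 7 * (g₁ * g₂ * g₃) * n := by
        rw [Finset.card_empty]
        have : 10 ^ 6 * (g₁ * g₂ * g₃) * (0 + 1) * (2 * n) =
          (2 * 10 ^ 6) * ((g₁ * g₂ * g₃) * n) := by ring
        rw [this, mul_assoc (10 ^ 7)]
        exact Nat.mul_le_mul_right _ (by norm_num)
      omega)
  refine ⟨fun i => z (2 * i) ++ [x i] ++ z (2 * i + 1), ∑ j ∈ range (2 * n), (z j : Multiset ℕ),
    ?_, hz2, hz3, ?_, ?_, ?_⟩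
  · intro i hi
    have e1 := hz1 (2 * i) (by omega)
    have e2 := hz1 (2 * i + 1) (by omega)
    simp only [List.length_append, List.length_singleton, e1, e2]
  · intro b hb hbH
    obtain ⟨c1, c2, -, c4⟩ := hz4 b hb hbH
    exact ⟨c1, c2, c4⟩
  · rw [sum_two, ← Finset.sum_add_distrib]
    refine Finset.sum_congr rfl fun i _ => ?_
    dsimp only
    rw [← Multiset.coe_add, ← Multiset.coe_add, Multiset.coe_singleton]
    abel
  · rw [← hz5, sum_two]
    congr 1
    refine Finset.sum_congr rfl fun i _ => ?_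
    have e0 : (2 * i) % 2 = 0 := by omega
    have e1 : (2 * i) / 2 = i := by omega
    have e2 : (2 * i + 1) % 2 ≠ 0 := by omega
    have e3 : (2 * i + 1) / 2 = i := by omega
    simp only [e0, e1, e2, e3, if_true, if_false]
    have k : A i :: (z (2 * i) ++ [x i] ++ z (2 * i + 1) ++ [C i]) =
        (A i :: z (2 * i)) ++ x i :: (z (2 * i + 1) ++ [C i]) := by simp
    rw [k, dm_append_cons]
    simp

end Pool.Agent.W520.SQ
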